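import Pool.Agent.N843.CK.Stm
import Pool.Agent.R426.QK.BOX

/-!
# Project CK (helper843), job CK-BOX: the count in a box for the class `1` modulo `8` (helper136)

Port of `Pool/Agent/R426/QK/BOX.lean` (helper426): the labels of a prime are enlarged by its labels
`gg`, `hh` modulo `8` (project AW of helper848).
-/

set_option autoImplicit false
set_option linter.unusedVariables false

open scoped Classical

namespace Pool.Agent.N136.CK

open Finset
open Pool.Agent.Y698
open Pool.Agent.R426.QK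
open Pool.Agent.R426.QK.BOX
open Pool.Agent.R426
open Pool.Agent.N848.AW (gg hh)
open Pool.Agent.N843.CK (Nd1)

/-- the label of a prime with respect to the small primes, with the labels modulo `8` -/
noncomputable def lb1 (S₀ : Finset RR) (x : RR) :
    ((S₀ → ZMod 2) × ZMod 2 × ZMod 2) × ZMod 2 × ZMod 2 := (lb S₀ x, gg x, hh x)

/-- the good labels -/
def LN1 {ι : Type} [Fintype ι] (S₀ : Finset RR)
    (β : ι → ((S₀ → ZMod 2) × ZMod 2 × ZMod 2) × ZMod 2 × ZMod 2) : Prop :=
  (∑ u ∈ S₀, gg u + ∑ i, (β i).2.1 = 0) ∧ (∑ u ∈ S₀, hh u + ∑ i, (β i).2.2 = 0) ∧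
    LN S₀ (fun i => (β i).1)

theorem nd1_iff {ι : Type} [Fintype ι] {S₀ : Finset RR} {p : ι → RR} (hrec : RecP)
    (hp : Function.Injective p) (hpr : ∀ i, Pq (p i)) (hS₀ : ∀ u ∈ S₀, Pq u) (hd : ∀ i, p i ∉ S₀) :
    Nd1 S₀ (univ.image p) ↔ LN1 S₀ (fun i => lb1 S₀ (p i)) := by
  unfold Nd1 LN1
  rw [Finset.sum_image (fun a _ b _ h => hp h), Finset.sum_image (fun a _ b _ h => hp h),
    nd_iff hrec hpr hS₀ hd]
  exact Iff.rfl

/-- **The count in a box.** -/
theorem t_BOX1 : Pool.Agent.N843.CK.S_BOX1 := by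
  intro hrec hEQ ε V hLA ι _ _ C X κ S₀ hκ hCX hHB hS₀ hC hdis hhyp
  obtain ⟨R, hR⟩ : ∃ R : ℝ, R = 2 ^ (prs ι).card * (κ * ∏ j, (X j : ℝ)) := ⟨_, rfl⟩
  have hR0 : 0 ≤ R := by
    rw [hR]
    exact mul_nonneg (by positivity)
      (mul_nonneg hκ (Finset.prod_nonneg fun j _ => by positivity))
  -- facts on tuples
  have hinj : ∀ p ∈ Fintype.piFinset C, Function.Injective p := by
    intro p hp i j hij
    rw [Fintype.mem_piFinset] at hp
    by_contra hne
    have h1 := Finset.disjoint_left.1 (hdis i j hne) (hp i)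
    rw [hij] at h1
    exact h1 (hp j)
  have hd : ∀ p ∈ Fintype.piFinset C, ∀ i, p i ∉ S₀ := by
    intro p hp i
    rw [Fintype.mem_piFinset] at hp
    exact (hC i _ (hp i)).2
  have hpr : ∀ p ∈ Fintype.piFinset C, ∀ i, Pq (p i) := by
    intro p hp i
    rw [Fintype.mem_piFinset] at hp
    exact (hC i _ (hp i)).1
  -- the part with given labels
  have h1 : ∀ β : ι → ((S₀ → ZMod 2) × ZMod 2 × ZMod 2) × ZMod 2 × ZMod 2, LN1 S₀ β →
      |(((Fintype.piFinset C).filter fun p => (fun i => lb1 S₀ (p i)) = β ∧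
          Gd (S₀ ∪ univ.image p)).card : ℝ) -
        c2 * (((Fintype.piFinset C).filter fun p => (fun i => lb1 S₀ (p i)) = β).card : ℝ)| ≤
      ε * (((Fintype.piFinset C).filter fun p => (fun i => lb1 S₀ (p i)) = β).card : ℝ) + R := by
    intro β hβ
    by_cases hex : ∃ p ∈ Fintype.piFinset C, (fun i => lb1 S₀ (p i)) = β
    swap
    · have e1 : ((Fintype.piFinset C).filter fun p => (fun i => lb1 S₀ (p i)) = β) = ∅ := by
        rw [Finset.filter_eq_empty_iff]
        intro p hp h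
        exact hex ⟨p, hp, h⟩
      have e2 : ((Fintype.piFinset C).filter fun p => (fun i => lb1 S₀ (p i)) = β ∧
          Gd (S₀ ∪ univ.image p)) = ∅ := by
        rw [Finset.filter_eq_empty_iff]
        rintro p hp ⟨h, -⟩
        exact hex ⟨p, hp, h⟩
      rw [e1, e2, Finset.card_empty, Nat.cast_zero, mul_zero, mul_zero, sub_zero, abs_zero,
        zero_add]
      exact hR0
    obtain ⟨q₀, hq₀, hq₀β⟩ := hex
    obtain ⟨hc1, hc2⟩ := hhyp q₀ hq₀
    obtain ⟨C', hC'⟩ : ∃ C' : ι → Finset RR, C' = fun i => (C i).filter fun q => lb1 S₀ q = β i :=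
      ⟨_, rfl⟩
    have hpi : (Fintype.piFinset C).filter (fun p => (fun i => lb1 S₀ (p i)) = β) =
        Fintype.piFinset C' := by
      ext p
      simp only [Finset.mem_filter, Fintype.mem_piFinset, hC']
      constructor
      · rintro ⟨h2, h3⟩ i
        exact ⟨h2 i, congrFun h3 i⟩
      · intro h2
        exact ⟨fun i => (h2 i).1, funext fun i => (h2 i).2⟩
    have htt : ∀ i, (β i).1.2.2 = tt (q₀ i) := by
      intro i
      rw [← hq₀β]
      rfl
    have h2 := hLA S₀ ι (fun u => ss u) (fun u => tt u) (fun i => (β i).1.2.1) (fun i => (β i).1.2.2)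
      (fun u v => cs v u) (fun u l => (β l).1.1 u)
      (by
        rw [Fintype.card_coe]
        simp only [htt]
        exact hc1)
      (by
        simp only [htt]
        rw [Finset.sum_coe_sort S₀ (fun u => tt u)]
        exact hc2)
      (fun u v huv => by
        have h3 := hrec (u : RR) v (hS₀ u u.2) (hS₀ v v.2) (fun h => huv (Subtype.ext h))
        rw [← h3, add_comm])
      (fun w e hw => hβ.2.2 w e hw)
    obtain ⟨Q, hQ⟩ : ∃ Q : (prs ι → ZMod 2) → Prop, Q = fun α =>
        GdA (fun u : S₀ => ss u) (fun u : S₀ => tt u) (fun i => (β i).1.2.1) (fun i => (β i).1.2.2)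
          (fun u v : S₀ => cs v u) (fun (u : S₀) l => (β l).1.1 u)
          (Pool.Agent.R426.QK.ext (fun i => (β i).1.2.2) α) := ⟨_, rfl⟩
    have h3 := hEQ ι C' X κ hκ
      (fun i => (Finset.card_le_card (by rw [hC']; exact Finset.filter_subset _ _)).trans (hCX i))
      (by rw [hC']; exact HB_sub hHB fun i q => lb1 S₀ q = β i) Q
    have h4 : ((Fintype.piFinset C).filter fun p => (fun i => lb1 S₀ (p i)) = β ∧
        Gd (S₀ ∪ univ.image p)) = ((Fintype.piFinset C').filter fun p =>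
          Q fun e => cs (p e.1.1) (p e.1.2)) := by
      rw [← hpi, Finset.filter_filter]
      refine Finset.filter_congr fun p hp => ?_
      refine and_congr_right fun hl => ?_
      rw [gd_iff hrec (hinj p hp) (hpr p hp) hS₀ (hd p hp)]
      subst hl
      rw [hQ]
      exact Iff.rfl
    have h5 : (((Fintype.piFinset C').card : ℕ) : ℝ) = ∏ j, ((C' j).card : ℝ) := by
      rw [Fintype.card_piFinset]
      push_cast
      rfl
    rw [h4, hpi, h5]
    rw [← hR] at h3
    obtain ⟨n, hn⟩ : ∃ n : ℝ, n = (((Fintype.piFinset C').filter fun p =>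
          Q fun e => cs (p e.1.1) (p e.1.2)).card : ℝ) := ⟨_, rfl⟩
    obtain ⟨q, hq⟩ : ∃ q : ℝ, q = ((univ.filter Q).card : ℝ) / 2 ^ (prs ι).card := ⟨_, rfl⟩
    obtain ⟨P, hP⟩ : ∃ P : ℝ, P = ∏ j, ((C' j).card : ℝ) := ⟨_, rfl⟩
    have hP0 : 0 ≤ P := by
      rw [hP]
      exact Finset.prod_nonneg fun j _ => by positivity
    have h2' : |q - c2| ≤ ε := by
      rw [hq, hQ]
      exact h2
    rw [← hn, ← hq, ← hP] at h3
    rw [← hn, ← hP]
    have h6 : |n - c2 * P| ≤ |n - q * P| + |q - c2| * P := by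
      have h7 : n - c2 * P = (n - q * P) + (q - c2) * P := by ring
      have h8 : |(q - c2) * P| = |q - c2| * P := by rw [abs_mul, abs_of_nonneg hP0]
      rw [h7, ← h8]
      exact abs_add_le _ _
    have h7 : |q - c2| * P ≤ ε * P := mul_le_mul_of_nonneg_right h2' hP0
    linarith
  -- sum over the labels
  obtain ⟨LL, hLL⟩ : ∃ LL : Finset (ι → ((S₀ → ZMod 2) × ZMod 2 × ZMod 2) × ZMod 2 × ZMod 2),
      LL = univ.filter (fun β => LN1 S₀ β) := ⟨_, rfl⟩
  have hfib : ∀ T : (ι → RR) → Prop,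
      (((Fintype.piFinset C).filter fun p => Nd1 S₀ (univ.image p) ∧ T p).card : ℝ) =
      ∑ β ∈ LL, (((Fintype.piFinset C).filter fun p =>
        (fun i => lb1 S₀ (p i)) = β ∧ T p).card : ℝ) := by
    intro T
    rw [Finset.card_eq_sum_card_fiberwise (f := fun (p : ι → RR) (i : ι) => lb1 S₀ (p i))
      (t := LL) (by
        intro p hp
        rw [Finset.mem_coe, Finset.mem_filter] at hp
        rw [Finset.mem_coe, hLL, Finset.mem_filter]
        exact ⟨Finset.mem_univ _, (nd1_iff hrec (hinj p hp.1) (hpr p hp.1) hS₀ (hd p hp.1)).1 hp.2.1⟩)]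
    push_cast
    refine Finset.sum_congr rfl fun β hβ => ?_
    rw [hLL, Finset.mem_filter] at hβ
    congr 2
    ext p
    simp only [Finset.mem_filter]
    constructor
    · rintro ⟨⟨h3, h4, h4'⟩, h5⟩
      exact ⟨h3, h5, h4'⟩
    · rintro ⟨h3, h4, h5⟩
      refine ⟨⟨h3, ?_, h5⟩, h4⟩
      rw [nd1_iff hrec (hinj p h3) (hpr p h3) hS₀ (hd p h3), h4]
      exact hβ.2
  have hf1 := hfib fun p => Gd (S₀ ∪ univ.image p)
  have hf2 := hfib fun _ => True
  simp only [and_true] at hf2
  rw [hf1, hf2, Finset.mul_sum, ← Finset.sum_sub_distrib]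
  refine (Finset.abs_sum_le_sum_abs _ _).trans ?_
  refine (Finset.sum_le_sum fun β hβ => h1 β (by
    rw [hLL] at hβ
    exact (Finset.mem_filter.1 hβ).2)).trans ?_
  rw [Finset.sum_add_distrib, ← Finset.mul_sum, Finset.sum_const, nsmul_eq_mul]
  have h5 : ((LL.card : ℕ) : ℝ) ≤ 2 ^ ((S₀.card + 4) * Fintype.card ι) := by
    have h6 : LL.card ≤ Fintype.card (ι → ((S₀ → ZMod 2) × ZMod 2 × ZMod 2) × ZMod 2 × ZMod 2) :=
      Finset.card_le_univ _
    rw [Fintype.card_fun, Fintype.card_prod, Fintype.card_prod, Fintype.card_prod,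
      Fintype.card_fun, ZMod.card, Fintype.card_coe] at h6
    have h7 : 2 ^ S₀.card * (2 * 2) * (2 * 2) = 2 ^ (S₀.card + 4) := by ring
    rw [h7, ← pow_mul] at h6
    exact_mod_cast h6
  have h6 := mul_le_mul_of_nonneg_right h5 hR0
  rw [pow_add, mul_assoc, ← hR]
  linarith

end Pool.Agent.N136.CK
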