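import Pool.Agent.N843.CK.Stm
import Pool.Agent.R426.QK.KEY

/-!
# Project CK (helper843), job CK-KEY: the sum over the boxes for the class `1` modulo `8` (helper136)

Port of `Pool/Agent/R426/QK/KEY2.lean` and `Pool/Agent/R426/QK/KEY.lean` (helper983, helper426).
-/

set_option autoImplicit false

namespace Pool.Agent.N136.CK

open Finset
open Pool.Agent.Y698 Pool.Agent.Y698.SG
open Pool.Agent.Y703.CX (jj XX)
open Pool.Agent.R426.QK
open Pool.Agent.R426.QK.KEY
open Pool.Agent.R426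
open Pool.Agent.N843.CK (Nd1 S_BOX1)
open scoped Classical

/-- the statement for the boxes with the decidability of equality as a variable -/
theorem box_dec1 (hR : RecP) (hE : S_EQ) (hB : S_BOX1) {ε : ℝ} {V : ℕ} (hL : LAE ε V) (ι : Type)
    [Fintype ι] [inst : DecidableEq ι]
    (lo : LinearOrder ι) (C : ι → Finset RR) (X : ι → ℕ) (κ : ℝ) (S₀ : Finset RR) (h1 : 0 ≤ κ)
    (h2 : ∀ i, (C i).card ≤ X i) (h3 : HB C X κ) (h4 : ∀ u ∈ S₀, Pq u)
    (h5 : ∀ i, ∀ π ∈ C i, Pq π ∧ π ∉ S₀) (h6 : ∀ i l, i ≠ l → Disjoint (C i) (C l))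
    (h7 : ∀ p ∈ Fintype.piFinset C, 4 * S₀.card + V ≤ (univ.filter fun i => tt (p i) = 1).card ∧
      ∑ u ∈ S₀, tt u + ∑ i, tt (p i) = 0) :
    |(((Fintype.piFinset C).filter fun p => Nd1 S₀ (univ.image p) ∧
        QK.Gd (S₀ ∪ univ.image p)).card : ℝ) -
      c2 * (((Fintype.piFinset C).filter fun p => Nd1 S₀ (univ.image p)).card : ℝ)| ≤
    ε * (((Fintype.piFinset C).filter fun p => Nd1 S₀ (univ.image p)).card : ℝ) +
    2 ^ ((S₀.card + 4) * Fintype.card ι + (prs ι).card) * (κ * ∏ j, (X j : ℝ)) := by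
  have e : inst = fun a b => lo.toDecidableEq a b := Subsingleton.elim _ _
  subst e
  exact hB hR hE ε V hL ι C X κ S₀ h1 h2 h3 h4 h5 h6 h7

theorem per_key1 (hR : RecP) (hE : S_EQ) (hB : S_BOX1) {ε : ℝ} {V : ℕ} (hL : LAE ε V)
    (hε : 0 < ε) {C₁ : ℝ}
    (hb1 : ∀ (P Q : Finset RR) (A B z : ℕ) (c d : RR → ℂ),
      (∀ π ∈ P, Pq π ∧ nrm π ≤ A) → (∀ ρ ∈ Q, Pq ρ ∧ nrm ρ ≤ B) → Disjoint P Q →
      1 ≤ z → z ≤ A → z ≤ B → (∀ π, ‖c π‖ ≤ 1) → (∀ ρ, ‖d ρ‖ ≤ 1) →
      ‖∑ π ∈ P, ∑ ρ ∈ Q, c π * d ρ * ez (cs π ρ)‖ ^ 24 * z ≤ C₁ * ((A : ℝ) * B) ^ 24)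
    {X z H k : ℕ} {κ : ℝ} (hH : 1 ≤ H) (hz : 1 ≤ z) (hκ : 0 ≤ κ)
    (h1 : C₁ ≤ κ ^ 24 * z) {S₀ : Finset RR} {J : Finset ℕ}
    (hkey : (S₀, J) ∈ (Rg X z H k V).image (ky z H)) :
    |(((Rg X z H k V).filter fun S => ky z H S = (S₀, J) ∧
        (Nd1 (sm z S) (la z S) ∧ QK.Gd S)).card : ℝ) -
      c2 * (((Rg X z H k V).filter fun S => ky z H S = (S₀, J) ∧
        Nd1 (sm z S) (la z S)).card : ℝ)| ≤
    ε * (((Rg X z H k V).filter fun S => ky z H S = (S₀, J) ∧ True).card : ℝ) +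
      (3 ^ (9 * k ^ 2) * κ) * (X * (1 / ((∏ p ∈ S₀, nrm p : ℕ) : ℝ))) := by
  obtain ⟨h₀O, h₀, hJi, hCd, hJf⟩ := key_facts hH hkey
  obtain ⟨c1, c4, c5, c6⟩ := hCd
  have hcJ : Fintype.card J = J.card := Fintype.card_coe J
  have hCmem : ∀ i : J, ∀ p ∈ CC z H i, Pq p ∧ z < nrm p ∧ nrm p ≤ XX H (i.1 / 4) := by
    intro i p hp
    obtain ⟨k1, k2, k3⟩ := (mem_CC hH).1 hp
    refine ⟨k1, k2, ?_⟩
    unfold CC at hp
    rw [Finset.mem_filter, mem_QB] at hp
    exact hp.1.1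
  have hdis : ∀ i l : J, i ≠ l → Disjoint (CC z H (i : ℕ)) (CC z H (l : ℕ)) := by
    intro i l hil
    rw [Finset.disjoint_left]
    intro p hp hp'
    have h5 := ((mem_CC hH).1 hp).2.2
    have h6 := ((mem_CC hH).1 hp').2.2
    exact hil (Subtype.ext (h5.symm.trans h6))
  have hzX : ∀ i : J, z ≤ XX H (i.1 / 4) := fun i => (hJf i i.2).1
  have hHB : HB (fun i : J => CC z H i) (fun i : J => 16 * XX H (i.1 / 4)) κ :=
    hb_box hb1 _ _ hz hκ h1 (fun i => by have := hzX i; omega)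
      (fun i p hp => by
        obtain ⟨k1, k2, k3⟩ := hCmem i p hp
        exact ⟨k1, by omega⟩) hdis
  have hcard : ∀ i : J, (CC z H (i : ℕ)).card ≤ 16 * XX H (i.1 / 4) := by
    intro i
    refine (Finset.card_filter_le _ _).trans (card_QB_le ?_)
    have := hzX i
    omega
  have hph : ∀ p ∈ Fintype.piFinset (fun i : J => CC z H (i : ℕ)), ∀ i : J,
      nrm (p i) % 4 = (i : ℕ) % 4 := by
    intro p hp i
    rw [Fintype.mem_piFinset] at hp
    have h5 := ((mem_CC hH).1 (hp i)).2.2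
    rw [← ph_mod H (p i), h5]
  have hbox := box_dec1 hR hE hB hL J inferInstance (fun i : J => CC z H i)
    (fun i : J => 16 * XX H (i.1 / 4)) κ S₀ hκ hcard hHB h₀O (fun i p hp => by
      obtain ⟨k1, k2, k3⟩ := hCmem i p hp
      refine ⟨k1, fun h => ?_⟩
      have := h₀ p h
      omega) hdis (by
        intro p hp
        have hq := hph p hp
        constructor
        · refine c6.trans (le_of_eq ?_)
          have h5 : (J.filter fun i => i % 4 = 3) =
              (univ.filter fun i : J => tt (p i) = 1).image (fun i : J => (i : ℕ)) := by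
            ext i
            rw [Finset.mem_filter, Finset.mem_image]
            constructor
            · rintro ⟨hi, hi3⟩
              refine ⟨⟨i, hi⟩, ?_, rfl⟩
              rw [Finset.mem_filter]
              refine ⟨Finset.mem_univ _, tt_one.2 ?_⟩
              rw [hq ⟨i, hi⟩]
              exact hi3
            · rintro ⟨j, hj, rfl⟩
              rw [Finset.mem_filter] at hj
              refine ⟨j.2, ?_⟩
              rw [← hq j]
              exact tt_one.1 hj.2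
          rw [h5, Finset.card_image_of_injective _ Subtype.val_injective]
        · rw [Fintype.mem_piFinset] at hp
          have h5 := prod_tt S₀ (fun u => u) h₀O
          have h6 := prod_tt (univ : Finset J) p fun i _ => ((mem_CC hH).1 (hp i)).1
          have h7 : (∏ i ∈ J, i) % 4 = (∏ i : J, nrm (p i)) % 4 := by
            rw [← Finset.prod_coe_sort J (fun i => i)]
            rw [Finset.prod_nat_mod, Finset.prod_nat_mod univ 4 (fun i : J => nrm (p i))]
            congr 1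
            exact Finset.prod_congr rfl fun i _ => (hq i).symm
          rw [Nat.mul_mod, h7] at c1
          rcases h5 with ⟨h5, h8⟩ | ⟨h5, h8⟩ <;> rcases h6 with ⟨h6, h9⟩ | ⟨h6, h9⟩ <;>
            rw [h5, h6] at c1 <;> rw [h8, h9]
          · rfl
          · omega
          · omega
          · decide)
  have e1 : (((Fintype.piFinset fun i : J => CC z H i).filter
      fun p => Nd1 S₀ (univ.image p) ∧ QK.Gd (S₀ ∪ univ.image p)).card) =
      ((Rg X z H k V).filter fun S => ky z H S = (S₀, J) ∧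
        (Nd1 (sm z S) (la z S) ∧ QK.Gd S)).card := by
    refine Eq.trans (fcc ?_) ((key_bij hH hkey (fun S => Nd1 (sm z S) (la z S) ∧ QK.Gd S)).trans
      (fcc fun _ _ => Iff.rfl))
    intro p hp
    rw [Fintype.mem_piFinset] at hp
    rw [sm_fill hH h₀ hp, la_fill hH h₀ hp]
  have e2 : (((Fintype.piFinset fun i : J => CC z H i).filter
      fun p => Nd1 S₀ (univ.image p)).card) =
      ((Rg X z H k V).filter fun S => ky z H S = (S₀, J) ∧ Nd1 (sm z S) (la z S)).card := by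
    refine Eq.trans (fcc ?_) ((key_bij hH hkey (fun S => Nd1 (sm z S) (la z S))).trans
      (fcc fun _ _ => Iff.rfl))
    intro p hp
    rw [Fintype.mem_piFinset] at hp
    rw [sm_fill hH h₀ hp, la_fill hH h₀ hp]
  rw [← e1, ← e2]
  have e3 : (((Fintype.piFinset fun i : J => CC z H i).filter
      fun p => Nd1 S₀ (univ.image p)).card : ℝ) ≤
      (((Rg X z H k V).filter fun S => ky z H S = (S₀, J) ∧ True).card : ℝ) := by
    rw [e2]
    have : (Rg X z H k V).filter (fun S => ky z H S = (S₀, J) ∧ Nd1 (sm z S) (la z S)) ⊆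
        (Rg X z H k V).filter fun S => ky z H S = (S₀, J) ∧ True := by
      intro S hS
      rw [Finset.mem_filter] at hS ⊢
      exact ⟨hS.1, hS.2.1, trivial⟩
    exact_mod_cast Finset.card_le_card this
  refine hbox.trans ?_
  have hJK : J.card ≤ k := by omega
  have hSK : S₀.card ≤ k := by omega
  obtain ⟨m, hm⟩ : ∃ m : ℕ, m = (prs J).card := ⟨_, rfl⟩
  have hpr : m ≤ k * k := by
    rw [hm]
    refine (prs_card J).trans ?_
    rw [hcJ]
    exact Nat.mul_le_mul hJK hJK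
  rw [← hm]
  have hN0 : (0 : ℝ) < ((∏ p ∈ S₀, nrm p : ℕ) : ℝ) := by
    exact_mod_cast Finset.prod_pos fun p hp => nrm_one_le (h₀O p hp)
  have hprod : ∏ j : J, ((16 * XX H (j.1 / 4) : ℕ) : ℝ) ≤
      3 ^ (3 * k) * (X * (1 / ((∏ p ∈ S₀, nrm p : ℕ) : ℝ))) := by
    have h5 : ∏ j : J, ((16 * XX H (j.1 / 4) : ℕ) : ℝ) =
        16 ^ J.card * ((∏ i ∈ J, XX H (i / 4) : ℕ) : ℝ) := by
      rw [← Finset.prod_coe_sort J (fun i => XX H (i / 4))]
      push_cast
      rw [Finset.prod_mul_distrib, Finset.prod_const, Finset.card_univ, hcJ]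
    have h6 : ((∏ i ∈ J, XX H (i / 4) : ℕ) : ℝ) ≤ X * (1 / ((∏ p ∈ S₀, nrm p : ℕ) : ℝ)) := by
      rw [mul_one_div, le_div_iff₀ hN0, mul_comm]
      exact_mod_cast c5
    have h7 : (16 : ℝ) ^ J.card ≤ 3 ^ (3 * k) := by
      calc (16 : ℝ) ^ J.card ≤ 27 ^ J.card := pow_le_pow_left₀ (by norm_num) (by norm_num) _
        _ = 3 ^ (3 * J.card) := by rw [pow_mul]; norm_num
        _ ≤ 3 ^ (3 * k) := pow_le_pow_right₀ (by norm_num) (by omega)
    rw [h5]
    gcongr
  have hpw : (2 : ℝ) ^ ((S₀.card + 4) * Fintype.card J + m) * 3 ^ (3 * k) ≤ 3 ^ (9 * k ^ 2) := by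
    refine (mul_le_mul_of_nonneg_right (pow_le_pow_left₀ (by norm_num)
      (show (2 : ℝ) ≤ 3 by norm_num) _) (by positivity)).trans ?_
    rw [← pow_add]
    apply pow_le_pow_right₀ (by norm_num)
    rw [hcJ]
    have h5 : S₀.card * J.card ≤ k * k := Nat.mul_le_mul hSK hJK
    have h6 : k ≤ k * k := by
      rcases Nat.eq_zero_or_pos k with h | h
      · rw [h]
      · exact Nat.le_mul_of_pos_left k h
    nlinarith
  refine add_le_add ?_ ?_
  · exact mul_le_mul_of_nonneg_left e3 hε.le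
  · have hX1 : (0 : ℝ) ≤ X * (1 / ((∏ p ∈ S₀, nrm p : ℕ) : ℝ)) := by positivity
    calc (2 : ℝ) ^ ((S₀.card + 4) * Fintype.card J + m) *
        (κ * ∏ j : J, ((16 * XX H (j.1 / 4) : ℕ) : ℝ)) ≤
        2 ^ ((S₀.card + 4) * Fintype.card J + m) *
          (κ * (3 ^ (3 * k) * (X * (1 / ((∏ p ∈ S₀, nrm p : ℕ) : ℝ))))) := by gcongr
      _ = (2 ^ ((S₀.card + 4) * Fintype.card J + m) * 3 ^ (3 * k)) *
          (κ * (X * (1 / ((∏ p ∈ S₀, nrm p : ℕ) : ℝ)))) := by ring
      _ ≤ 3 ^ (9 * k ^ 2) * (κ * (X * (1 / ((∏ p ∈ S₀, nrm p : ℕ) : ℝ)))) := by gcongr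
      _ = _ := by ring

/-- **CK-KEY.** -/
theorem t_KEY1 : Pool.Agent.N843.CK.S_KEY1 := by
  rintro hR ⟨C₁, hC₁, hb1⟩ hE hB
  refine ⟨C₁, hC₁, ?_⟩
  intro ε V hε hL X z H k N κ hX hH hz hκ h1 hN
  set T := (Rg X z H k V).image (ky z H) with hT
  have hfib : ∀ P : Finset RR → Prop, (((Rg X z H k V).filter fun S => P S).card : ℝ) =
      ∑ k' ∈ T, (((Rg X z H k V).filter fun S => ky z H S = k' ∧ P S).card : ℝ) := by
    intro P
    rw [Finset.card_eq_sum_card_fiberwise (f := ky z H) (t := T) (by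
      intro S hS
      rw [Finset.mem_coe, Finset.mem_filter] at hS
      exact Finset.mem_coe.2 (Finset.mem_image_of_mem _ hS.1))]
    push_cast
    refine Finset.sum_congr rfl fun k' _ => ?_
    congr 2
    ext S
    simp only [Finset.mem_filter]
    tauto
  have hall : ((Rg X z H k V).card : ℝ) =
      ∑ k' ∈ T, (((Rg X z H k V).filter fun S => ky z H S = k' ∧ True).card : ℝ) := by
    rw [Finset.card_eq_sum_card_fiberwise (f := ky z H) (t := T) (by
      intro S hS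
      exact Finset.mem_coe.2 (Finset.mem_image_of_mem _ hS))]
    push_cast
    exact Finset.sum_congr rfl fun k' _ => congrArg _ (fcc fun _ _ => by tauto)
  have q1 : (((Rg X z H k V).filter fun S => Nd1 (sm z S) (la z S) ∧ QK.Gd S).card : ℝ) =
      ∑ k' ∈ T, (((Rg X z H k V).filter fun S => ky z H S = k' ∧
        (Nd1 (sm z S) (la z S) ∧ QK.Gd S)).card : ℝ) :=
    (congrArg _ (fcc fun _ _ => Iff.rfl)).trans ((hfib fun S => Nd1 (sm z S) (la z S) ∧ QK.Gd S).trans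
      (Finset.sum_congr rfl fun k' _ => congrArg _ (fcc fun _ _ => Iff.rfl)))
  rw [q1, hfib, Finset.mul_sum, ← Finset.sum_sub_distrib, hall, Finset.mul_sum]
  refine (Finset.abs_sum_le_sum_abs _ _).trans ?_
  have h3 : ∑ k' ∈ T, |(((Rg X z H k V).filter fun S => ky z H S = k' ∧
      (Nd1 (sm z S) (la z S) ∧ QK.Gd S)).card : ℝ) - c2 * (((Rg X z H k V).filter fun S =>
      ky z H S = k' ∧ Nd1 (sm z S) (la z S)).card : ℝ)| ≤
      ∑ k' ∈ T, (ε * (((Rg X z H k V).filter fun S =>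
      ky z H S = k' ∧ True).card : ℝ) +
      (3 ^ (9 * k ^ 2) * κ) * (X * (1 / ((∏ p ∈ k'.1, nrm p : ℕ) : ℝ)))) := by
    refine Finset.sum_le_sum fun k' hk => ?_
    obtain ⟨S₀, J⟩ := k'
    exact per_key1 hR hE hB hL hε hb1 hH hz hκ h1 hk
  refine h3.trans ?_
  rw [Finset.sum_add_distrib]
  refine add_le_add (le_refl _) ?_
  exact keg_err hX hH hz hκ hN fun k' hk => hk

end Pool.Agent.N136.CK
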